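import Pool.Agent.KS6_94.BE.C

/-!
# `b^eq_b` below and above `non(E)`: the functions tending to infinity and all others

`Loc κ` says that for each bound `b` at most `κ` slaloms of width `2 ^ k` localize all of `∏ b`, and
`sN` is the splitting number. If `Loc κ` holds for some `κ < sN`, as it does in the Mathias model, then
`b^eq_b < non(E)` for all `b` tending to infinity, in particular for all summable `b`, while
`sN ≤ b^eq_b` for all other `b`.
-/

set_option autoImplicit false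

namespace Pool.Agent.Results.MP_00464d_lc.AllUnbounded

open Filter Cardinal Pool.Agent.H84.BeqDefs Pool.Agent.KS6_94.BE

/-- In ZFC: `𝔰 ≤ non(E) ≤ non(M)`; if `b ≥* 2` then `b^eq_b ≤ non(M)`; if moreover `b` does not tend to
infinity then `𝔰 ≤ b^eq_b`, and if `b` takes the value `2` infinitely often then
`b^eq_b = non(M) ≥ non(E)`; `Loc κ` implies `b^eq_b ≤ κ` for all `b` tending to infinity.
So if `κ < 𝔰` and `Loc κ`, then `b^eq_b < non(E)` for all summable `b` and, for `b ≥* 2`, `b^eq_b < 𝔰` if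
and only if `b` tends to infinity, and if `𝔰 = non(E)` then `b^eq_b < non(E)` if and only if `b` tends
to infinity. -/
theorem result :
    (sN ≤ non E ∧ non E ≤ non M ∧
      (∀ b : ℕ → ℕ, (∀ k, 1 ≤ b k) → (∀ᶠ k in atTop, 2 ≤ b k) →
        bEq b ≤ non M ∧ (¬ Tendsto b atTop atTop → sN ≤ bEq b) ∧
        ((∃ᶠ k in atTop, b k = 2) → bEq b = non M)) ∧
      (∀ κ : Cardinal, Loc κ → ∀ b : ℕ → ℕ, (∀ k, 1 ≤ b k) → Tendsto b atTop atTop →
        bEq b ≤ κ)) ∧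
    (∀ κ < sN, Loc κ →
      (∀ b : ℕ → ℕ, (∀ k, 1 ≤ b k) → (Summable fun k => 1 / (b k : ℝ)) → bEq b < non E) ∧
      (∀ b : ℕ → ℕ, (∀ k, 1 ≤ b k) → Tendsto b atTop atTop → bEq b < non E) ∧
      (∀ b : ℕ → ℕ, (∀ k, 1 ≤ b k) → (∀ᶠ k in atTop, 2 ≤ b k) →
        (bEq b < sN ↔ Tendsto b atTop atTop)) ∧
      (sN = non E → ∀ b : ℕ → ℕ, (∀ k, 1 ≤ b k) → (∀ᶠ k in atTop, 2 ≤ b k) →
        (bEq b < non E ↔ Tendsto b atTop atTop))) := by
  have hs := Pool.Agent.H84.Beq.s_le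
  refine ⟨⟨hs, nonE_le_nonM, fun b h1 h2 => ⟨le_nonM h1 h2, sN_le h1 h2,
    fun hc => (le_nonM h1 h2).antisymm (nonM_le h1 h2 hc)⟩, fun κ h b h1 h2 => all_inf h h1 h2⟩,
    fun κ hκ h => ?_⟩
  have key : ∀ b : ℕ → ℕ, (∀ k, 1 ≤ b k) → (∀ᶠ k in atTop, 2 ≤ b k) →
      (bEq b < sN ↔ Tendsto b atTop atTop) := fun b h1 h2 =>
    ⟨fun r => by_contra fun h3 => (sN_le h1 h2 h3).not_gt r,
      fun h3 => (all_inf h h1 h3).trans_lt hκ⟩
  have inf : ∀ b : ℕ → ℕ, (∀ k, 1 ≤ b k) → Tendsto b atTop atTop → bEq b < non E :=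
    fun b h1 h2 => (all_inf h h1 h2).trans_lt (hκ.trans_le hs)
  refine ⟨fun b h1 h2 => inf b h1 (tendsto_atTop.2 fun n => ?_), inf, key, fun e => e ▸ key⟩
  filter_upwards [h2.tendsto_atTop_zero.eventually_lt_const
    (show (0 : ℝ) < 1 / ((n + 1 : ℕ) : ℝ) by positivity)] with k r
  have h5 := Nat.cast_lt.1 (lt_of_one_div_lt_one_div (Nat.cast_pos.2 (h1 k)) r)
  omega

end Pool.Agent.Results.MP_00464d_lc.AllUnbounded
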