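import Pool.Agent.KS6_94.BF.B
import Pool.Graph.R_pool_sql_team_seeded_63374d34.N646.MC.Forced

/-!
# `b_b^eq < non(E)` for all `b` with few small values

All conditions of `Cond Λ` force the sentences `Cap K` and `EscB (slow F) K` for every function `F`
of the ground model. In ZFC these sentences imply `b_b^eq ≤ #K < non(E)` for all `b` such that for
all `n` at most `F n` of the numbers `b k` are at most `n`.
-/

set_option autoImplicit false

namespace Pool.Agent.Results.MP_00464d_lc.FewSmallValues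

open Cardinal Filter Pool.Agent.N646.MC Pool.Agent.KS6_94.BF
open Pool.Agent.R593.Eq (beq nonE)

/-- (1) For all sets `Λ` and `K` with at least two elements such that `#K ^ ℵ₀ = #K < #Λ` (there
are such sets) all conditions of `Cond Λ` force `Cap K`, and `EscB (slow F) K` for every `F`.
(2) In ZFC, if `Cap K` and `EscB (slow F) K` hold, then `b_b^eq ≤ #K < non(E)` for all `b` such that
for all `n` at most `F n` of the numbers `b k` are at most `n`. (3) For summable `b` this holds for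
`F n = C n` with some `C`, and for each `b` tending to infinity it holds for some `F`. -/
theorem result :
    (∃ Λ K : Type, 2 ≤ #K ∧ #K ^ ℵ₀ = #K ∧ #K < #Λ) ∧
    (∀ Λ K : Type, 2 ≤ #K → #K ^ ℵ₀ = #K → #K < #Λ →
      Nonempty (Cond Λ) ∧ ∀ p : Cond Λ, p ∈ CapN (Cond Λ) K ∧
        ∀ F : ℕ → ℕ, p ∈ EscBN (Cond Λ) (slow F) K) ∧
    (∀ (K : Type) (F : ℕ → ℕ), Cap K → EscB (slow F) K →
      ∀ b : ℕ → ℕ, (∀ k, 1 ≤ b k) → CountBelow F b → beq b ≤ #K ∧ #K < nonE ∧ beq b < nonE) ∧
    (∀ b : ℕ → ℕ, (∀ k, 1 ≤ b k) → Summable (fun k => (1 : ℝ) / b k) →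
      ∃ C : ℕ, CountBelow (fun n => C * n) b) ∧
    (∀ b : ℕ → ℕ, Tendsto b atTop atTop → ∃ F : ℕ → ℕ, CountBelow F b) := by
  refine ⟨⟨Set (Set ℕ), Set ℕ, ?_, ?_, ?_⟩, fun Λ K h2 hK hΛ => ⟨inferInstance, fun p =>
    ⟨cap_forced hK h2 hΛ p, fun F => escB_forced ?_ (fun k => (slow_mem F k).1)
      (slow_tendsto F) p⟩⟩, fun K F h hF b hb hs => ?_, fun b hb hs => exists_count hb hs,
    fun b hb => ⟨fun n => {k | b k ≤ n}.ncard, fun n => ⟨?_, le_rfl⟩⟩⟩
  · rw [mk_set, mk_nat, two_power_aleph0]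
    exact (nat_lt_continuum 2).le
  · rw [mk_set, mk_nat, two_power_aleph0, continuum_power_aleph0]
  · rw [mk_set (α := Set ℕ)]
    exact cantor _
  · rw [← hK, ← two_power_aleph0]
    exact power_le_power_right h2
  · have h1 := beq_le_of_count hF hb hs
    have h2 := lt_nonE h
    exact ⟨h1, h2, h1.trans_lt h2⟩
  · obtain ⟨M, hM⟩ := eventually_atTop.1 (hb.eventually_gt_atTop n)
    refine (Set.finite_lt_nat M).subset fun k hk => ?_
    by_contra hcon
    exact absurd (hM k (not_lt.1 hcon)) (not_lt.2 hk)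

end Pool.Agent.Results.MP_00464d_lc.FewSmallValues
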